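import Pool.Agent.helper92.ISO.SpecG

/-! Row iso:THB (MP_069684_lc): basic facts about the critical probability. -/

set_option autoImplicit false

open Filter Topology

namespace Pool.Agent.ISO

open Pool.Agent.PB

theorem THB_harm (κ : ℕ) (h : 1 ≤ κ) : (1 : ℝ) ≤ (harmonic κ : ℝ) := by
  have h1 : (1 : ℚ) ≤ harmonic κ := by
    unfold harmonic
    have h2 := Finset.single_le_sum (f := fun i : ℕ => ((i + 1 : ℕ) : ℚ)⁻¹) (s := Finset.range κ)
      (fun i _ => by positivity) (Finset.mem_range.2 (show 0 < κ by omega))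
    simpa using h2
  exact_mod_cast h1

theorem THB_nonneg {R m : ℕ} {μ : Finset (Fin R) → ℝ} {κ : ℕ} {q : ℝ} (h : Strat R m μ) (h' : ValLe κ q μ) : 0 ≤ q :=
  le_trans (Finset.sum_nonneg fun K _ => h.nonneg K) (h' ∅)

theorem THB_one (m κ : ℕ) (hm : 1 ≤ m) : ∃ (R : ℕ) (μ : Finset (Fin R) → ℝ), Strat R m μ ∧ ValLe κ 1 μ := by
  have hs : Strat 1 m (fun K : Finset (Fin 1) => if K = {0} then (1 : ℝ) else 0) := by
    refine ⟨fun K => ?_, fun K hK => ?_, ?_⟩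
    · split_ifs <;> norm_num
    · split_ifs at hK with h
      · rw [h, Finset.card_singleton]
        exact ⟨le_rfl, hm⟩
      · exact absurd rfl hK
    · rw [Finset.sum_ite_eq' Finset.univ]
      simp
  refine ⟨1, _, hs, fun T => ?_⟩
  refine le_trans ?_ hs.sum.le
  exact Finset.sum_le_sum_of_subset_of_nonneg (Finset.filter_subset _ _) fun K _ _ => hs.nonneg K

theorem THB_proof (hTHL : THL_stmt) : THB_stmt := by
  intro m κ hm hκ
  have hbdd : BddBelow {q : ℝ | ∃ (R : ℕ) (μ : Finset (Fin R) → ℝ), Strat R m μ ∧ ValLe κ q μ} := by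
    refine ⟨0, ?_⟩
    rintro q ⟨R, μ, h1, h2⟩
    exact THB_nonneg h1 h2
  have hne : ({q : ℝ | ∃ (R : ℕ) (μ : Finset (Fin R) → ℝ), Strat R m μ ∧ ValLe κ q μ}).Nonempty :=
    ⟨1, THB_one m κ hm⟩
  have hH := THB_harm κ hκ
  have hm0 : (1 : ℝ) ≤ m := by exact_mod_cast hm
  have hle : ∀ (q : ℝ) (R : ℕ) (μ : Finset (Fin R) → ℝ), Strat R m μ → ValLe κ q μ → theta m κ ≤ q :=
    fun q R μ h1 h2 => csInf_le hbdd ⟨R, μ, h1, h2⟩
  have h0 : 0 ≤ theta m κ := by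
    refine le_csInf hne ?_
    rintro q ⟨R, μ, h1, h2⟩
    exact THB_nonneg h1 h2
  have h1 : theta m κ ≤ 1 := by
    obtain ⟨R, μ, h1, h2⟩ := THB_one m κ hm
    exact hle 1 R μ h1 h2
  have h6 : ∀ δ : ℝ, 0 < δ → δ ≤ 1 → (harmonic κ : ℝ) - δ ≤ theta m κ * (Real.log (m / δ) + harmonic κ) := by
    intro δ hδ hδ1
    have hlog : 0 ≤ Real.log (m / δ) := by
      apply Real.log_nonneg
      rw [le_div_iff₀ hδ]
      linarith
    have hA : 0 < Real.log (m / δ) + harmonic κ := by linarith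
    rw [← div_le_iff₀ hA]
    refine le_csInf hne ?_
    rintro q ⟨R, μ, h2, h3⟩
    rw [div_le_iff₀ hA]
    exact hTHL R m κ q δ μ hm hκ hδ hδ1 h2 h3
  have h5 : 1 / 2 ≤ theta m κ * (Real.log (2 * m) + 1) := by
    have h2 := h6 (1 / 2) (by norm_num) (by norm_num)
    have h3 : (m : ℝ) / (1 / 2) = 2 * m := by ring
    rw [h3] at h2
    nlinarith
  refine ⟨hle, ?_, ?_, h1, h5, h6⟩
  · intro q hq
    obtain ⟨q', ⟨R, μ, h2, h3⟩, h4⟩ := exists_lt_of_csInf_lt hne hq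
    exact ⟨R, μ, h2, fun T => (h3 T).trans h4.le⟩
  · refine lt_of_le_of_ne h0 ?_
    intro h2
    rw [← h2, zero_mul] at h5
    norm_num at h5

end Pool.Agent.ISO
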